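import Pool.Agent.H76.ND.Targets2

/-!
# Part D of MP_57ddd5_pr: BZ (the scale of the distance to the nearer end point)
-/

open MeasureTheory ProbabilityTheory
open scoped ENNReal

namespace Pool.Agent.H65.ND

open Pool.Agent.H99.NS Pool.Agent.H22.LPP Pool.Agent.H95.INS Pool.Agent.H76.ND

theorem pf_BZ : T_BZ := by
  intro n a z ha hn h64
  have hne : {b : ℕ | a ≤ b ∧ min (64 ^ a * z.1) (2 * (n : ℤ) - 64 ^ a * z.1) < lv (b + 1)}.Nonempty := by
    have h1 : ∀ m : ℕ, (m : ℤ) < 64 ^ m := fun m => by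
      exact_mod_cast Nat.lt_pow_self (by norm_num : 1 < 64)
    refine ⟨a + (min (64 ^ a * z.1) (2 * (n : ℤ) - 64 ^ a * z.1)).natAbs, by omega, ?_⟩
    set M := min (64 ^ a * z.1) (2 * (n : ℤ) - 64 ^ a * z.1) with hM
    unfold lv
    have h2 := h1 (a + M.natAbs)
    have h3 : M ≤ M.natAbs := by omega
    have h4 : a + M.natAbs + 1 - 1 = a + M.natAbs := by omega
    rw [h4]
    have h5 : ((a + M.natAbs : ℕ) : ℤ) = a + (M.natAbs : ℤ) := by push_cast; ring
    rw [h5] at h2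
    have h6 : (0 : ℤ) ≤ a := by positivity
    linarith
  have hmem := Nat.sInf_mem hne
  have hbz : bz n a z = sInf {b : ℕ | a ≤ b ∧ min (64 ^ a * z.1) (2 * (n : ℤ) - 64 ^ a * z.1) < lv (b + 1)} := rfl
  rw [← hbz] at hmem
  have hlast : a < bz n a z → lv (bz n a z) ≤ 64 ^ a * z.1 ∧
      64 ^ a * z.1 + lv (bz n a z) ≤ 2 * n := by
    intro h
    have hnot : bz n a z - 1 ∉ {b : ℕ | a ≤ b ∧
        min (64 ^ a * z.1) (2 * (n : ℤ) - 64 ^ a * z.1) < lv (b + 1)} := by
      apply Nat.notMem_of_lt_sInf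
      rw [← hbz]; omega
    simp only [Set.mem_setOf_eq, not_and, not_lt] at hnot
    have h2 := hnot (by omega)
    rw [show bz n a z - 1 + 1 = bz n a z by omega] at h2
    have h3 := le_min_iff.1 h2
    exact ⟨h3.1, by linarith [h3.2]⟩
  refine ⟨hmem.1, hmem.2, ?_, hlast⟩
  rcases Nat.lt_or_ge a (bz n a z) with h | h
  · have h1 := hlast h
    have h2 : (lv (bz n a z) : ℤ) + lv (bz n a z) ≤ 2 * n := by linarith [h1.1, h1.2]
    have h3 : (2 : ℤ) * lv (bz n a z) = 64 ^ (bz n a z) := by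
      unfold lv
      conv_rhs => rw [show bz n a z = bz n a z - 1 + 1 by omega, pow_succ]
      ring
    have h4 : ((64 ^ (bz n a z) : ℕ) : ℤ) ≤ ((2 * n : ℕ) : ℤ) := by
      push_cast
      rw [← h3]; linarith
    exact_mod_cast h4
  · have : bz n a z = a := le_antisymm h hmem.1
    rw [this]; exact h64

end Pool.Agent.H65.ND
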