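import Pool.Agent.H76.ND.Targets2
import Pool.Agent.H4.ND.LW

/-!
# Module CNC: confinement of optimal paths
-/

namespace Pool.Agent.H65.ND

open Pool.Agent.H99.NS Pool.Agent.H22.LPP Pool.Agent.H95.INS Pool.Agent.H76.ND

/-- The real inequality. -/
theorem cnc_real {s F Z d C1 m x1 x2 W A : ℝ} (hs : 0 < s) (hF : 0 < F) (hZ : 1 ≤ Z)
    (hd : 0 ≤ d) (hC1 : 0 < C1) (hx : d ≤ x2) (hA : A = 17 * s + 33 * C1 + 328 + 1056 / s)
    (hU : W ≤ 32 * m - s / 66 * F * (x1 ^ 2 + x2 ^ 2) + 8 * Z * F * (41 + d) +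
      4 * Z * F * (x1 + x2))
    (hL : 32 * m - s / 2 * (33 * F) - 33 * C1 * Z * F ≤ W) :
    d ≤ (132 * (9 + A) / s + 1) * Z := by
  have hA0 : 0 < A := by rw [hA]; positivity
  -- completing the square
  have sq1 : ∀ x : ℝ, 4 * Z * x ≤ s / 132 * x ^ 2 + 528 * Z ^ 2 / s := by
    intro x
    have h : s / 132 * x ^ 2 + 528 * Z ^ 2 / s - 4 * Z * x =
        s / 132 * (x - 264 * Z / s) ^ 2 := by
      field_simp
      ring
    have h2 : 0 ≤ s / 132 * (x - 264 * Z / s) ^ 2 := by positivity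
    linarith
  have k1 := mul_le_mul_of_nonneg_right (add_le_add (sq1 x1) (sq1 x2)) hF.le
  have hx2 : d ^ 2 ≤ x2 ^ 2 := by nlinarith only [hd, hx]
  have hx1 : 0 ≤ x1 ^ 2 := sq_nonneg _
  have e1 : 0 ≤ s / 132 * F := by positivity
  have k2 : s / 132 * F * d ^ 2 ≤ s / 132 * F * (x1 ^ 2 + x2 ^ 2) :=
    mul_le_mul_of_nonneg_left (by linarith) e1
  have k3 : s / 132 * F * d ^ 2 ≤
      (s / 2 * 33 + 33 * C1 * Z + 8 * Z * (41 + d) + 1056 * Z ^ 2 / s) * F := by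
    have e2 : 1056 * Z ^ 2 / s = 528 * Z ^ 2 / s + 528 * Z ^ 2 / s := by ring
    rw [e2]
    nlinarith only [hU, hL, k1, k2]
  have k4 : s / 132 * d ^ 2 ≤
      s / 2 * 33 + 33 * C1 * Z + 8 * Z * (41 + d) + 1056 * Z ^ 2 / s := by
    have : s / 132 * d ^ 2 * F ≤
      (s / 2 * 33 + 33 * C1 * Z + 8 * Z * (41 + d) + 1056 * Z ^ 2 / s) * F := by
      linarith
    exact le_of_mul_le_mul_right this hF
  have k5 : s / 132 * d ^ 2 ≤ A * Z ^ 2 + 8 * Z * d := by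
    have g1 : Z ≤ Z ^ 2 := by nlinarith only [hZ]
    have g2 : 1 ≤ Z ^ 2 := by nlinarith only [hZ, g1]
    have g3 : s / 2 * 33 ≤ 17 * s * Z ^ 2 := by nlinarith only [hs, hZ, g1]
    have g4 : 33 * C1 * Z ≤ 33 * C1 * Z ^ 2 := mul_le_mul_of_nonneg_left g1 (by positivity)
    have g5 : A * Z ^ 2 = 17 * s * Z ^ 2 + 33 * C1 * Z ^ 2 + 328 * Z ^ 2 + 1056 * Z ^ 2 / s := by
      rw [hA]; ring
    linarith
  by_contra hcon
  push Not at hcon
  obtain ⟨C, hC⟩ : ∃ C : ℝ, C = 132 * (9 + A) / s + 1 := ⟨_, rfl⟩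
  rw [← hC] at hcon
  have hC1' : 1 ≤ C := by
    have : 0 ≤ 132 * (9 + A) / s := by positivity
    linarith
  have hsC : s / 132 * C = 9 + A + s / 132 := by
    rw [hC]
    field_simp
  have hd0 : 0 < d := lt_of_le_of_lt (by nlinarith only [hZ, hC1']) hcon
  have j1 : s / 132 * d > (8 + A) * Z := by
    have : s / 132 * (C * Z) < s / 132 * d := mul_lt_mul_of_pos_left hcon (by positivity)
    have e : s / 132 * (C * Z) = (9 + A + s / 132) * Z := by rw [← hsC]; ring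
    rw [e] at this
    nlinarith only [mul_pos hs (by linarith : 0 < Z), hZ, this, hs]
  have j2 : (8 + A) * Z * d < s / 132 * d * d := mul_lt_mul_of_pos_right j1 hd0
  have j3 : Z ≤ d := by nlinarith only [hcon, hC1', hZ]
  have j4 : A * Z ^ 2 ≤ A * Z * d := by
    have : A * Z * Z ≤ A * Z * d := mul_le_mul_of_nonneg_left j3 (by positivity)
    linarith
  nlinarith only [k5, j2, j4]

/-- One application of the path bound. -/
theorem cnc_up {s F E p V Z d t S M w m : ℝ} (hs : 0 < s) (hF : 0 < F) (hE : 0 < E)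
    (hp : 0 < p) (hpV : p ≤ V) (hpEF : p ^ 2 = E * F) (hZ : 1 ≤ Z) (ht : 0 ≤ t)
    (ht' : t ≤ 32 * E) (hS : 0 ≤ S) (hM : M ≤ (40 + d) * V)
    (h : w ≤ m - s / 2 * S ^ 2 / (t + 3 / 1000 * E) + 4 * Z * F * (1 + (M + S) / V)) :
    w ≤ m - s / 66 * F * (S / p) ^ 2 + 4 * Z * F * (41 + d) + 4 * Z * F * (S / p) := by
  have hV : 0 < V := lt_of_lt_of_le hp hpV
  have h1 : s / 66 * F * (S / p) ^ 2 ≤ s / 2 * S ^ 2 / (t + 3 / 1000 * E) := by
    rw [div_pow, hpEF, le_div_iff₀ (by positivity)]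
    have e : s / 66 * F * (S ^ 2 / (E * F)) * (t + 3 / 1000 * E) =
        s / 2 * S ^ 2 * ((t + 3 / 1000 * E) / (33 * E)) := by
      field_simp
      ring
    rw [e]
    have h2 : (t + 3 / 1000 * E) / (33 * E) ≤ 1 := by
      rw [div_le_one (by positivity)]
      linarith
    have h3 : 0 ≤ s / 2 * S ^ 2 := by positivity
    nlinarith only [h2, h3]
  have h2 : (M + S) / V ≤ 40 + d + S / p := by
    rw [add_div]
    have a1 : M / V ≤ 40 + d := by rw [div_le_iff₀ hV]; exact hM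
    have a2 : S / V ≤ S / p := div_le_div_of_nonneg_left hS hp hpV
    linarith
  have h3 : 4 * Z * F * (1 + (M + S) / V) ≤ 4 * Z * F * (41 + d + S / p) :=
    mul_le_mul_of_nonneg_left (by linarith) (by positivity)
  linarith

theorem pf_CNC (h_LW : T_LW) : T_CNC := by
  intro q hq0 hq1
  obtain ⟨C1, hC1, hLW⟩ := h_LW q hq0 hq1
  have hsg := sg_pos hq0 hq1
  refine ⟨132 * (9 + (17 * sg q + 33 * C1 + 328 + 1056 / sg q)) / sg q + 1, by positivity, ?_⟩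
  intro P K0 Xc a k g hK0 hXc hXca ha hak hPB hIL hLL hNO hg0 hgl r hr1 hr2
  have c0 := Pool.Agent.H4.ND.lv_real (i := a) ha
  have c1 := Pool.Agent.H4.ND.lv_real_succ (i := a) ha
  have l0 := Pool.Agent.H4.ND.lv_pos a
  have l1 := Pool.Agent.H4.ND.lv_mono (i := a) (j := a + 1) (by omega)
  obtain ⟨hpath, hno⟩ := hNO
  have hReach : Reach (-lv (a + 1), g (-lv (a + 1))) (0, g 0) :=
    Conn.reach (γ := g) ⟨hpath, rfl, rfl⟩ (by simp only; omega)
  -- lower bound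
  have w3 := hLW P K0 Xc a k a (0, g 0) (g (-lv (a + 1))) hK0 (by omega) hXca ha hak le_rfl
    (by simp only; omega) (by simp only; omega) hg0 (by
      simp only
      have e1 : (16 : ℤ) ^ (a + 1) = 16 * 16 ^ a := by rw [pow_succ]; ring
      rw [e1] at hgl
      have : (0 : ℤ) < 16 ^ a := by positivity
      nlinarith) hReach hIL
    (fun m h1 h2 => by
      obtain rfl : m = a := le_antisymm h2 h1
      exact hLL)
  simp only at w3
  -- real quantities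
  obtain ⟨E, hE⟩ : ∃ E : ℝ, E = 64 ^ a := ⟨_, rfl⟩
  obtain ⟨F, hF⟩ : ∃ F : ℝ, F = 4 ^ a := ⟨_, rfl⟩
  obtain ⟨p, hpd⟩ : ∃ p : ℝ, p = 16 ^ a := ⟨_, rfl⟩
  obtain ⟨V, hV⟩ : ∃ V : ℝ, V = 16 ^ k := ⟨_, rfl⟩
  have hE0 : 0 < E := by rw [hE]; positivity
  have hF0 : 0 < F := by rw [hF]; positivity
  have hp0 : 0 < p := by rw [hpd]; positivity
  have hpV : p ≤ V := by rw [hpd, hV]; exact pow_le_pow_right₀ (by norm_num) hak
  have hpEF : p ^ 2 = E * F := by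
    rw [hpd, hE, hF, ← pow_mul, mul_comm a 2, pow_mul, ← mul_pow]
    norm_num
  obtain ⟨th, hth⟩ : ∃ th : ℝ, th = (101 / 100) ^ (k - a) := ⟨_, rfl⟩
  have hth1 : 1 ≤ th := by rw [hth]; exact one_le_pow₀ (by norm_num)
  have hZ : 1 ≤ K0 * th := one_le_mul_of_one_le_of_one_le hK0 hth1
  obtain ⟨D, hD⟩ : ∃ D : ℝ, D = ((g (-lv (a + 1)) - g 0 : ℤ) : ℝ) := ⟨_, rfl⟩
  have hd1 : |D| ≤ 32 * p := by
    rw [hD, hpd]
    have : |((g (-lv (a + 1)) - g 0 : ℤ) : ℝ)| ≤ 2 * 16 ^ (a + 1) := by exact_mod_cast hgl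
    rw [pow_succ] at this
    linarith
  have hd2 : D ^ 2 ≤ 1024 * (E * F) := by
    rw [← sq_abs D, ← hpEF]
    have := abs_nonneg D
    nlinarith only [hq0, hq1, hp0, hd1, this]
  obtain ⟨d, hd⟩ : ∃ d : ℝ, d = |((g r - g 0 : ℤ) : ℝ)| / p := ⟨_, rfl⟩
  have hd0 : 0 ≤ d := by rw [hd]; positivity
  have ed : |((g r - g 0 : ℤ) : ℝ)| = d * p := by rw [hd]; field_simp
  -- upper bounds
  obtain ⟨S1, hS1, hW1⟩ := hPB (-lv (a + 1)) r g le_rfl hr1 (by omega)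
    (fun x h1 h2 => hpath x h1 (by omega))
  obtain ⟨S2, hS2, hW2⟩ := hPB r 0 g hr1 hr2 (by omega)
    (fun x h1 h2 => hpath x (by omega) h2)
  have hS1' : 0 ≤ S1 := (abs_nonneg _).trans hS1
  have hS2' : 0 ≤ S2 := (abs_nonneg _).trans hS2
  rw [← hth, ← hF, ← hE, ← hV] at hW1 hW2
  rw [← hV] at hg0
  have ea : 4 * K0 * th * F = 4 * (K0 * th) * F := by ring
  rw [ea] at hW1 hW2
  have hM0 : |(g 0 : ℝ)| ≤ (40 + d) * V := by nlinarith only [hg0, hpV, hq0, hp0, hq1, hd0]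
  have hMr : |(g r : ℝ)| ≤ (40 + d) * V := by
    have h := abs_add_le ((g r - g 0 : ℤ) : ℝ) (g 0 : ℝ)
    have h2 : ((g r - g 0 : ℤ) : ℝ) + (g 0 : ℝ) = (g r : ℝ) := by push_cast; ring
    rw [h2, ed] at h
    nlinarith only [hg0, hpV, h, hq0, hp0, hq1, hd0]
  have hMl : |(g (-lv (a + 1)) : ℝ)| ≤ (40 + d) * V := by
    have h := abs_add_le D (g 0 : ℝ)
    have h2 : D + (g 0 : ℝ) = (g (-lv (a + 1)) : ℝ) := by rw [hD]; push_cast; ring
    rw [h2] at h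
    nlinarith only [hg0, hpV, hd1, h, hp0, hd0]
  have ht1 : (0 : ℝ) ≤ ((r - -lv (a + 1) : ℤ) : ℝ) := by
    have : 0 ≤ r - -lv (a + 1) := by omega
    exact_mod_cast this
  have ht2 : (0 : ℝ) ≤ ((0 - r : ℤ) : ℝ) := by
    have : 0 ≤ 0 - r := by omega
    exact_mod_cast this
  have ht12 : ((r - -lv (a + 1) : ℤ) : ℝ) + ((0 - r : ℤ) : ℝ) = 32 * E := by
    rw [hE, ← c1]
    push_cast
    ring
  have u1 := cnc_up hsg hF0 hE0 hp0 hpV hpEF hZ ht1 (by linarith) hS1' (max_le hMl hMr) hW1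
  have u2 := cnc_up hsg hF0 hE0 hp0 hpV hpEF hZ ht2 (by linarith) hS2' (max_le hMr hM0) hW2
  have hadd := P.add (-lv (a + 1)) r 0 g hr1 hr2
  have hx : d ≤ S2 / p := by
    rw [hd]
    have : |((g r - g 0 : ℤ) : ℝ)| = |((g 0 - g r : ℤ) : ℝ)| := by
      rw [← abs_neg]
      congr 1
      push_cast
      ring
    rw [this]
    gcongr
  have key := cnc_real (s := sg q) (F := F) (Z := K0 * th) (d := d) (C1 := C1)
    (m := mu q * E) (x1 := S1 / p) (x2 := S2 / p) (W := P.W (-lv (a + 1)) 0 g)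
    (A := 17 * sg q + 33 * C1 + 328 + 1056 / sg q) hsg hF0 hZ hd0 hC1 hx rfl ?_ ?_
  · rw [ed, ← hth, ← hpd]
    have := mul_le_mul_of_nonneg_right key hp0.le
    linarith only [this]
  · have em : mu q * ((r - -lv (a + 1) : ℤ) : ℝ) + mu q * ((0 - r : ℤ) : ℝ) =
        32 * (mu q * E) := by
      rw [← mul_add, ht12]; ring
    linarith only [u1, u2, hadd, em]
  · refine le_trans ?_ hno
    rw [sub_zero]
    refine le_trans ?_ w3
    have e1 : ((0 + lv (a + 1) : ℤ) : ℝ) = 32 * E := by rw [zero_add, c1, hE]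
    have e2 : ((lv (a + 1) - lv a : ℤ) : ℝ) = 63 / 2 * E := by
      push_cast
      rw [c1, c0, hE]
      ring
    rw [e1, e2, ← hD, Pool.Agent.H4.ND.ds_le hak, ← hth, ← hF, ← hpd]
    have e3 : sg q / 2 * D ^ 2 / (63 / 2 * E) ≤ sg q / 2 * (33 * F) := by
      rw [div_le_iff₀ (by positivity)]
      have f1 : 0 ≤ sg q / 2 := by positivity
      have f4 : 0 < E * F := by positivity
      have f2 : D ^ 2 ≤ 33 * F * (63 / 2 * E) := by nlinarith only [hd2, f4]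
      calc sg q / 2 * D ^ 2 ≤ sg q / 2 * (33 * F * (63 / 2 * E)) := mul_le_mul_of_nonneg_left f2 f1
        _ = _ := by ring
    have e4 : C1 * K0 * th * F * (1 + |D| / p) ≤ 33 * C1 * (K0 * th) * F := by
      have f1 : |D| / p ≤ 32 := by rw [div_le_iff₀ hp0]; exact hd1
      have f2 : 0 ≤ C1 * K0 * th * F := by positivity
      have := mul_le_mul_of_nonneg_left (by linarith only [f1] : 1 + |D| / p ≤ 33) f2
      linarith only [this]
    have e5 : mu q * (32 * E) = 32 * (mu q * E) := by ring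
    rw [e5]
    linarith only [e3, e4]

end Pool.Agent.H65.ND
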