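import Pool.Agent.H76.ND.Targets2
import Pool.Agent.H97.NF.Pair

/-!
# Part D of MP_57ddd5_pr: CSW (Cauchy-Schwarz for the product of the two differences)
-/

open MeasureTheory ProbabilityTheory
open scoped ENNReal

namespace Pool.Agent.H65.ND

open Pool.Agent.H99.NS Pool.Agent.H22.LPP Pool.Agent.H95.INS Pool.Agent.H76.ND
open Pool.Agent.H97.NF (PEnv eA eB PN glue ff domN tile mp_eA mp_eB mp_glue_self
  glue_of_notMem)

theorem mp_X4 (q : ℝ) (ρ : Site → ℝ) (Q : Set Site) (l : Fin 4) :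
    MeasurePreserving (X4 Q l) ((PN q ρ).prod (PN q ρ)) (PE q) := by
  have hA := mp_eA q ρ
  have hB := mp_eB q ρ
  have hG := mp_glue_self q Q ρ
  have hF : MeasurePreserving (Prod.fst : PEnv × PEnv → PEnv) ((PN q ρ).prod (PN q ρ)) (PN q ρ) :=
    measurePreserving_fst
  by_cases h0 : l = 0
  · have e : X4 Q l = eA ∘ Prod.fst := by
      funext F; unfold X4; rw [if_pos h0]; rfl
    rw [e]; exact hA.comp hF
  by_cases h1 : l = 1
  · have e : X4 Q l = eA ∘ (fun p : PEnv × PEnv => glue Q p.1 p.2) := by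
      funext F; unfold X4; rw [if_neg h0, if_pos h1]; rfl
    rw [e]; exact hA.comp hG
  by_cases h2 : l = 2
  · have e : X4 Q l = eB ∘ Prod.fst := by
      funext F; unfold X4; rw [if_neg h0, if_neg h1, if_pos h2]; rfl
    rw [e]; exact hB.comp hF
  · have e : X4 Q l = eB ∘ (fun p : PEnv × PEnv => glue Q p.1 p.2) := by
      funext F; unfold X4; rw [if_neg h0, if_neg h1, if_neg h2]; rfl
    rw [e]; exact hB.comp hG

theorem X4_agree (Q : Set Site) (F : PEnv × PEnv) (x : Site) (hx : x ∉ Q) :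
    X4 Q 0 F x = X4 Q 1 F x ∧ X4 Q 2 F x = X4 Q 3 F x := by
  constructor
  · show eA F.1 x = eA (glue Q F.1 F.2) x
    unfold eA
    rw [glue_of_notMem _ _ hx]
  · show eB F.1 x = eB (glue Q F.1 F.2) x
    unfold eB
    rw [glue_of_notMem _ _ hx]

/-- Cauchy-Schwarz twice. -/
theorem cs2 {Ω : Type*} [MeasurableSpace Ω] (μ : Measure Ω) (S : Set Ω) (f g : Ω → ℝ≥0∞)
    (hf : Measurable f) (hg : Measurable g) (M p : ℝ≥0∞)
    (h1 : ∫⁻ x, f x ^ 4 ∂μ ≤ M) (h2 : ∫⁻ x, g x ^ 4 ∂μ ≤ M) (h3 : μ S ≤ p) :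
    ∫⁻ x in S, f x * g x ∂μ ≤ M ^ (1 / 2 : ℝ) * p ^ (1 / 2 : ℝ) := by
  have hpq : (2 : ℝ).HolderConjugate 2 := Real.HolderConjugate.two_two
  have a1 := ENNReal.lintegral_mul_le_Lp_mul_Lq (μ.restrict S) hpq
    (f := fun x => f x * g x) (g := fun _ => (1 : ℝ≥0∞)) (hf.mul hg).aemeasurable
    aemeasurable_const
  have a2 := ENNReal.lintegral_mul_le_Lp_mul_Lq μ hpq
    (f := fun x => f x ^ 2) (g := fun x => g x ^ 2) (hf.pow_const 2).aemeasurable
    (hg.pow_const 2).aemeasurable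
  simp only [Pi.mul_apply, mul_one, ENNReal.one_rpow, lintegral_one,
    Measure.restrict_apply_univ] at a1
  simp only [Pi.mul_apply] at a2
  refine a1.trans ?_
  apply mul_le_mul' _ (ENNReal.rpow_le_rpow h3 (by norm_num))
  apply ENNReal.rpow_le_rpow _ (by norm_num)
  have e1 : ∀ x, (f x * g x) ^ (2 : ℝ) = f x ^ 2 * g x ^ 2 := by
    intro x
    rw [ENNReal.rpow_two, mul_pow]
  calc ∫⁻ x in S, (f x * g x) ^ (2 : ℝ) ∂μ ≤ ∫⁻ x, (f x * g x) ^ (2 : ℝ) ∂μ :=
        lintegral_mono' Measure.restrict_le_self le_rfl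
    _ = ∫⁻ x, f x ^ 2 * g x ^ 2 ∂μ := lintegral_congr e1
    _ ≤ _ := a2
    _ ≤ M ^ (1 / 2 : ℝ) * M ^ (1 / 2 : ℝ) := by
        apply mul_le_mul'
        · apply ENNReal.rpow_le_rpow _ (by norm_num)
          refine le_trans (le_of_eq ?_) h1
          apply lintegral_congr
          intro x
          rw [ENNReal.rpow_two, ← pow_mul]
        · apply ENNReal.rpow_le_rpow _ (by norm_num)
          refine le_trans (le_of_eq ?_) h2
          apply lintegral_congr
          intro x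
          rw [ENNReal.rpow_two, ← pow_mul]
    _ = M := by
        rw [← ENNReal.rpow_add_of_nonneg _ _ (by norm_num) (by norm_num)]
        norm_num

theorem pf_CSW (h_MOM : T_MOM) : T_CSW := by
  intro q c0 hq0 hq1 hc0 hc1 hLT hN
  obtain ⟨C, N0, hC, hM⟩ := h_MOM q c0 hq0 hq1 hc0 hc1 hLT hN
  refine ⟨√C, N0, Real.sqrt_pos.2 hC, ?_⟩
  intro n a b z ρ S p hn hna hab hb hmin hp hS
  set μ := (PN q ρ).prod (PN q ρ) with hμ
  have hEP : EP (0, 0) (eN n) (2 * n) := by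
    refine ⟨?_, ?_, ?_, ?_⟩
    · simp [eN]
    · have : dx (0, 0) (eN n) = 0 := by simp [dx, eN]
      rw [this, abs_zero]
      positivity
    · refine ⟨?_, ?_⟩
      · simp [eN]
      · simp [eN]
    · simp
  have h64 : (64 : ℝ) ^ a ≤ 64 ^ b := pow_le_pow_right₀ (by norm_num) hab
  have hNb : ((2 * n : ℕ) : ℝ) ^ c0 ≤ 64 ^ b := hna.trans h64
  have hp64 : (64 : ℤ) ^ a ≤ 64 ^ b := pow_le_pow_right₀ (by norm_num) hab
  have hb0 : (1 : ℤ) ≤ 64 ^ b := one_le_pow₀ (by norm_num)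
  have hQ : (∀ x ∈ tile a z, x.1 ≤ ((0, 0) : Site).1 + lv (b + 2)) ∨
      (∀ x ∈ tile a z, (eN n).1 - lv (b + 2) < x.1) := by
    unfold lv at hmin ⊢
    rw [show b + 1 - 1 = b by omega] at hmin
    rw [show b + 2 - 1 = b + 1 by omega, pow_succ]
    rcases min_lt_iff.1 hmin with h | h
    · left
      rintro x ⟨-, t2, -, -⟩
      simp only [zero_add]
      have e : (2 * z.1 + 1) * 64 ^ a = 2 * (64 ^ a * z.1) + 64 ^ a := by ring
      rw [e] at t2
      linarith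
    · right
      rintro x ⟨t1, -, -, -⟩
      simp only [eN]
      have e : (2 * z.1 - 1) * 64 ^ a = 2 * (64 ^ a * z.1) - 64 ^ a := by ring
      rw [e] at t1
      linarith
  have hmeas : ∀ l, Measurable (fun F => ff n (X4 (tile a z) l F)) := by
    intro l
    unfold ff
    exact (measurable_T _ _).comp (mp_X4 q ρ (tile a z) l).measurable
  have key : ∀ l l' : Fin 4, (∀ F, ∀ x ∉ tile a z, X4 (tile a z) l F x = X4 (tile a z) l' F x) →
      ∫⁻ F, (ENNReal.ofReal |ff n (X4 (tile a z) l F) - ff n (X4 (tile a z) l' F)|) ^ 4 ∂μ ≤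
        ENNReal.ofReal (C * 256 ^ b) := by
    intro l l' hl
    have := hM (2 * n) (0, 0) (eN n) b (tile a z) (by omega) hEP hNb (by exact_mod_cast hb) hQ
      (PEnv × PEnv) μ (X4 (tile a z) l) (X4 (tile a z) l') (mp_X4 q ρ _ l) (mp_X4 q ρ _ l') hl
    refine le_trans (le_of_eq ?_) this
    apply lintegral_congr
    intro F
    rw [← ENNReal.ofReal_pow (abs_nonneg _)]
    rfl
  have k1 := key 0 1 (fun F x hx => (X4_agree _ F x hx).1)
  have k2 := key 2 3 (fun F x hx => (X4_agree _ F x hx).2)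
  have hres := cs2 μ S
    (fun F => ENNReal.ofReal |ff n (X4 (tile a z) 0 F) - ff n (X4 (tile a z) 1 F)|)
    (fun F => ENNReal.ofReal |ff n (X4 (tile a z) 2 F) - ff n (X4 (tile a z) 3 F)|)
    (ENNReal.measurable_ofReal.comp (((hmeas 0).sub (hmeas 1)).abs))
    (ENNReal.measurable_ofReal.comp (((hmeas 2).sub (hmeas 3)).abs))
    _ _ k1 k2 hS
  have e1 : ∀ F, ENNReal.ofReal (|ff n (X4 (tile a z) 0 F) - ff n (X4 (tile a z) 1 F)| *
      |ff n (X4 (tile a z) 2 F) - ff n (X4 (tile a z) 3 F)|) =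
      ENNReal.ofReal |ff n (X4 (tile a z) 0 F) - ff n (X4 (tile a z) 1 F)| *
      ENNReal.ofReal |ff n (X4 (tile a z) 2 F) - ff n (X4 (tile a z) 3 F)| :=
    fun F => ENNReal.ofReal_mul (abs_nonneg _)
  simp only [e1]
  refine hres.trans (le_of_eq ?_)
  rw [ENNReal.ofReal_rpow_of_nonneg (by positivity) (by norm_num),
    ENNReal.ofReal_rpow_of_nonneg hp (by norm_num), ← ENNReal.ofReal_mul (by positivity),
    ← Real.sqrt_eq_rpow, ← Real.sqrt_eq_rpow, Real.sqrt_mul hC.le]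
  have e2 : √((256 : ℝ) ^ b) = 16 ^ b := by
    rw [show (256 : ℝ) = 16 ^ 2 by norm_num, ← pow_mul, mul_comm, pow_mul,
      Real.sqrt_sq (by positivity)]
  rw [e2]

end Pool.Agent.H65.ND
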