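import Pool.Agent.H76.ND.Targets2

/-!
# Part D of MP_57ddd5_pr: KSM (the sum of the failure terms)
-/

open MeasureTheory ProbabilityTheory
open scoped ENNReal

namespace Pool.Agent.H65.ND

open Pool.Agent.H99.NS Pool.Agent.H22.LPP Pool.Agent.H95.INS Pool.Agent.H76.ND
open Pool.Agent.H97.NF (domN tile)

/-- polynomial decay of stretched exponentials -/
theorem str_le (c s p : ℝ) (hc : 0 < c) (hs : 0 < s) :
    ∃ K : ℝ, 0 < K ∧ ∀ x : ℝ, 1 ≤ x → x ^ p * Real.exp (-(c * x ^ s)) ≤ K := by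
  obtain ⟨k, hk⟩ := exists_nat_ge (p / s)
  refine ⟨k.factorial / c ^ k, by positivity, fun x hx => ?_⟩
  have hx0 : 0 < x := by linarith
  have h1 := Real.pow_div_factorial_le_exp (x := c * x ^ s) (by positivity) k
  have h2 : x ^ p ≤ (x ^ s) ^ k := by
    rw [← Real.rpow_natCast, ← Real.rpow_mul hx0.le]
    apply Real.rpow_le_rpow_of_exponent_le hx
    have := (div_le_iff₀ hs).1 hk
    linarith
  have h3 : (x ^ s) ^ k ≤ k.factorial / c ^ k * Real.exp (c * x ^ s) := by
    rw [mul_pow] at h1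
    have hf : (0 : ℝ) < k.factorial := by positivity
    have hck : 0 < c ^ k := by positivity
    rw [div_le_iff₀ hf] at h1
    rw [div_mul_eq_mul_div, le_div_iff₀ hck]
    nlinarith
  rw [Real.exp_neg]
  have he := Real.exp_pos (c * x ^ s)
  rw [← div_eq_mul_inv, div_le_iff₀ he]
  exact h2.trans h3

theorem summable_str (c s : ℝ) (hc : 0 < c) (hs : 0 < s) :
    Summable (fun u : ℕ => Real.exp (-(c * (u : ℝ) ^ s))) := by
  obtain ⟨K, hK, h⟩ := str_le c s 2 hc hs
  have h2 : Summable (fun u : ℕ => K * (1 / (u : ℝ) ^ 2)) :=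
    (Real.summable_one_div_nat_pow.2 (by norm_num)).mul_left K
  rw [← summable_nat_add_iff 1] at h2 ⊢
  refine Summable.of_nonneg_of_le (fun u => (Real.exp_pos _).le) (fun u => ?_) h2
  have hu : (1 : ℝ) ≤ ((u + 1 : ℕ) : ℝ) := by push_cast; linarith [(Nat.cast_nonneg u : (0 : ℝ) ≤ u)]
  have h3 := h _ hu
  have hu0 : (0 : ℝ) < ((u + 1 : ℕ) : ℝ) := by linarith
  rw [mul_one_div, le_div_iff₀ (by positivity)]
  rw [Real.rpow_two] at h3
  linarith

theorem inner (c s : ℝ) (hc : 0 < c) (hs : 0 < s) :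
    ∃ K : ℝ, 0 < K ∧ ∀ (W : ℕ), 1 ≤ W → ∀ T : Finset ℤ,
      ∑ y ∈ T, Real.exp (-(c * (|(y : ℝ)| / W) ^ s)) ≤ K * W := by
  have hsum := summable_str c s hc hs
  set g : ℕ → ℝ := fun u => Real.exp (-(c * (u : ℝ) ^ s)) with hg
  have hg0 : ∀ u, 0 < g u := fun u => Real.exp_pos _
  refine ⟨2 * ∑' u, g u, ?_, ?_⟩
  · have := hsum.tsum_pos (fun u => (hg0 u).le) 0 (hg0 0)
    linarith
  intro W hW T
  have hW0 : (0 : ℝ) < W := by exact_mod_cast hW
  have h1 : ∑ y ∈ T, Real.exp (-(c * (|(y : ℝ)| / W) ^ s)) ≤ ∑ y ∈ T, g (y.natAbs / W) := by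
    apply Finset.sum_le_sum
    intro y _
    rw [hg]
    apply Real.exp_le_exp.2
    apply neg_le_neg
    apply mul_le_mul_of_nonneg_left _ hc.le
    apply Real.rpow_le_rpow (by positivity) _ hs.le
    have : |(y : ℝ)| = (y.natAbs : ℝ) := by rw [Nat.cast_natAbs]; push_cast; rfl
    rw [this]
    exact Nat.cast_div_le
  refine h1.trans ?_
  rw [Finset.sum_comp g (fun y : ℤ => y.natAbs / W)]
  have h2 : ∀ u ∈ T.image (fun y : ℤ => y.natAbs / W),
      (T.filter (fun y : ℤ => y.natAbs / W = u)).card • g u ≤ (2 * W : ℝ) * g u := by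
    intro u _
    rw [nsmul_eq_mul]
    apply mul_le_mul_of_nonneg_right _ (hg0 u).le
    have h3 : T.filter (fun y : ℤ => y.natAbs / W = u) ⊆
        Finset.Ico ((u * W : ℕ) : ℤ) (((u + 1) * W : ℕ) : ℤ) ∪
        (Finset.Ico ((u * W : ℕ) : ℤ) (((u + 1) * W : ℕ) : ℤ)).image (fun y => -y) := by
      intro y hy
      rw [Finset.mem_filter] at hy
      have h4 := hy.2
      have h5 : u * W ≤ y.natAbs := by
        rw [← h4]; exact Nat.div_mul_le_self _ _
      have h6 : y.natAbs < (u + 1) * W := by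
        exact (Nat.div_lt_iff_lt_mul hW).1 (by omega)
      rw [Finset.mem_union, Finset.mem_image]
      rcases le_total 0 y with h | h
      · left
        rw [Finset.mem_Ico]
        omega
      · right
        refine ⟨-y, ?_, by ring⟩
        rw [Finset.mem_Ico]
        omega
    have h7 := (Finset.card_le_card h3).trans (Finset.card_union_le _ _)
    have h8 := h7.trans (Nat.add_le_add_left Finset.card_image_le _)
    rw [Int.card_Ico] at h8
    have h9 : ((((u + 1) * W : ℕ) : ℤ) - ((u * W : ℕ) : ℤ)).toNat = W := by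
      push_cast
      have : ((u : ℤ) + 1) * W - u * W = W := by ring
      rw [this]; simp
    rw [h9] at h8
    have h10 : ((T.filter (fun y : ℤ => y.natAbs / W = u)).card : ℝ) ≤ ((W + W : ℕ) : ℝ) := by
      exact_mod_cast h8
    push_cast at h10
    linarith
  refine (Finset.sum_le_sum h2).trans ?_
  rw [← Finset.mul_sum]
  have h11 := hsum.sum_le_tsum (T.image (fun y : ℤ => y.natAbs / W)) (fun u _ => (hg0 u).le)
  have : (2 * W : ℝ) * ∑ i ∈ T.image (fun y : ℤ => y.natAbs / W), g i ≤ (2 * W : ℝ) * ∑' u, g u :=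
    mul_le_mul_of_nonneg_left h11 (by positivity)
  linarith

/-- number of tiles of a column class -/
theorem col_card (n a d : ℕ) (S : Finset ℤ)
    (h0 : ∀ x ∈ S, 0 ≤ x ∧ (2 * x - 1) * 64 ^ a < 4 * n)
    (h1 : ∀ x ∈ S, min (64 ^ a * x) (2 * (n : ℤ) - 64 ^ a * x) < 32 * 64 ^ (a + d)) :
    (S.card : ℝ) ≤ 70 * 64 ^ d := by
  set q : ℤ := (2 * (n : ℤ)) / 64 ^ a with hq
  have hp : (0 : ℤ) < 64 ^ a := by positivity
  have hq1 : 64 ^ a * q ≤ 2 * n := Int.mul_ediv_self_le hp.ne'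
  have hq2 : 2 * (n : ℤ) < 64 ^ a * (q + 1) := by
    have := Int.lt_mul_ediv_self_add (x := 2 * (n : ℤ)) hp
    rw [mul_add, mul_one]
    linarith
  have hsub : S ⊆ Finset.Ico (0 : ℤ) (32 * 64 ^ d) ∪
      Finset.Icc (q - 32 * 64 ^ d + 1) (q + 1) := by
    intro x hx
    obtain ⟨hx0, hx1⟩ := h0 x hx
    have hx2 := h1 x hx
    rw [pow_add] at hx2
    rw [Finset.mem_union, Finset.mem_Ico, Finset.mem_Icc]
    rcases min_lt_iff.1 hx2 with h | h
    · left
      refine ⟨hx0, ?_⟩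
      by_contra hc
      push Not at hc
      have := mul_le_mul_of_nonneg_left hc hp.le
      nlinarith
    · right
      constructor
      · by_contra hc
        push Not at hc
        have h2 : x + 32 * 64 ^ d ≤ q := by linarith
        have := mul_le_mul_of_nonneg_left h2 hp.le
        nlinarith
      · by_contra hc
        push Not at hc
        have h2 : 2 * (q + 1) ≤ 2 * x - 1 := by omega
        have h3 := mul_le_mul_of_nonneg_right h2 hp.le
        nlinarith
  have h2 := (Finset.card_le_card hsub).trans (Finset.card_union_le _ _)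
  rw [Int.card_Ico, Int.card_Icc] at h2
  have h3 : ((32 * 64 ^ d : ℤ) - 0).toNat = 32 * 64 ^ d := by
    rw [sub_zero]
    have : (32 * 64 ^ d : ℤ) = ((32 * 64 ^ d : ℕ) : ℤ) := by push_cast; ring
    rw [this, Int.toNat_natCast]
  have h4 : ((q + 1) + 1 - (q - 32 * 64 ^ d + 1)).toNat = 32 * 64 ^ d + 1 := by
    have : ((q + 1) + 1 - (q - 32 * 64 ^ d + 1)) = ((32 * 64 ^ d + 1 : ℕ) : ℤ) := by
      push_cast; ring
    rw [this, Int.toNat_natCast]
  rw [h3, h4] at h2
  have h5 : (S.card : ℝ) ≤ ((32 * 64 ^ d + (32 * 64 ^ d + 1) : ℕ) : ℝ) := by exact_mod_cast h2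
  push_cast at h5
  have h6 : (1 : ℝ) ≤ 64 ^ d := one_le_pow₀ (by norm_num)
  linarith

theorem exp11 : 16384 * Real.exp (-11) ≤ 1 / 2 := by
  have h1 : Real.exp 11 = Real.exp 1 ^ 11 := by
    rw [← Real.exp_nat_mul]; norm_num
  have h2 : (2.7 : ℝ) ^ 11 ≤ Real.exp 1 ^ 11 :=
    pow_le_pow_left₀ (by norm_num) (by linarith [Real.exp_one_gt_d9]) 11
  rw [Real.exp_neg, h1]
  have h3 : (32768 : ℝ) ≤ Real.exp 1 ^ 11 := le_trans (by norm_num) h2
  rw [← div_eq_mul_inv, div_le_iff₀ (by positivity)]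
  linarith

theorem pf_KSM (h_BZ : T_BZ) : T_KSM := by
  classical
  intro C c c' s hC hc hc' hs
  obtain ⟨K, hK, hin⟩ := inner c s hc hs
  obtain ⟨K2, hK2, hstr⟩ := str_le 1 c' 42 one_pos hc'
  refine ⟨C * K * 140 + 9 * C * K2, by positivity, ?_⟩
  intro n a hn ha h64 Z
  set E : ℝ := C * (n : ℝ) ^ 40 * Real.exp (-((2 * n : ℕ) : ℝ) ^ c') with hE
  have hn1 : (1 : ℝ) ≤ n := by exact_mod_cast hn
  have hE0 : 0 ≤ E := by positivity
  set P : ℤ × ℤ → Prop := fun z => ∃ x ∈ domN n, x ∈ tile a z with hP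
  set main : ℤ × ℤ → ℝ := fun z => C * 16 ^ bz n a z * Real.exp (-(11 * ((bz n a z : ℝ) - a))) *
      Real.exp (-(c * (|(z.2 : ℝ)| * 16 ^ a / 16 ^ bz n a z) ^ s)) with hmain
  have hmain0 : ∀ z, 0 ≤ main z := fun z => by positivity
  have hfail : ∀ z, fail C c s E n a z = if P z then main z + E else 0 := by
    intro z
    unfold fail
    by_cases h : P z
    · rw [if_pos h]
    · rw [if_neg h]
  set S1 : Finset ℤ := (Finset.Icc 0 (2 * (n : ℤ))).filter (fun x => (2 * x - 1) * 64 ^ a < 4 * n)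
    with hS1
  set S2 : Finset ℤ := Finset.Icc (-(n : ℤ)) n with hS2
  have hp64 : (1 : ℤ) ≤ 64 ^ a := one_le_pow₀ (by norm_num)
  have hp16 : (1 : ℤ) ≤ 16 ^ a := one_le_pow₀ (by norm_num)
  have hPmem : ∀ z, P z → z ∈ S1 ×ˢ S2 := by
    rintro z ⟨x, hx, t1, t2, t3, t4⟩
    simp only [domN, Finset.mem_filter, Finset.mem_product, Finset.mem_Icc] at hx
    obtain ⟨⟨⟨hx1, hx2⟩, -⟩, hx3, hx4, -⟩ := hx
    have hab := abs_le.1 (show |x.2| ≤ (n : ℤ) by linarith)
    rw [Finset.mem_product, hS1, hS2, Finset.mem_filter, Finset.mem_Icc, Finset.mem_Icc]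
    refine ⟨⟨⟨?_, ?_⟩, by linarith⟩, ?_, ?_⟩
    · by_contra h
      push Not at h
      have h2 : 2 * z.1 + 1 ≤ 0 := by omega
      nlinarith
    · by_contra h
      push Not at h
      have h2 : 4 * (n : ℤ) + 1 ≤ 2 * z.1 - 1 := by omega
      nlinarith
    · by_contra h
      push Not at h
      have h2 : 2 * z.2 + 1 ≤ -(2 * n + 1) := by omega
      have h3 : (2 * z.2 + 1) * 16 ^ a ≤ -(2 * n + 1) * 1 := by nlinarith
      nlinarith
    · by_contra h
      push Not at h
      have h2 : 2 * (n : ℤ) + 1 ≤ 2 * z.2 - 1 := by omega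
      have h3 : (2 * (n : ℤ) + 1) * 1 ≤ (2 * z.2 - 1) * 16 ^ a := by nlinarith
      nlinarith
  have step1 : ∑ z ∈ Z, fail C c s E n a z ≤ ∑ z ∈ S1 ×ˢ S2, (if P z then main z + E else 0) := by
    have e1 : ∑ z ∈ Z, fail C c s E n a z = ∑ z ∈ Z.filter P, (if P z then main z + E else 0) := by
      rw [Finset.sum_filter]
      apply Finset.sum_congr rfl
      intro z _
      rw [hfail]
      by_cases h : P z
      · rw [if_pos h, if_pos h]
      · rw [if_neg h, if_neg h]
    rw [e1]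
    apply Finset.sum_le_sum_of_subset_of_nonneg
    · intro z hz
      exact hPmem z (Finset.mem_filter.1 hz).2
    · intro z _ _
      by_cases h : P z
      · rw [if_pos h]; linarith [hmain0 z]
      · rw [if_neg h]
  set S3 : Finset ℤ := S1.filter (fun x => ∃ y, P (x, y)) with hS3
  have step2 : ∑ z ∈ S1 ×ˢ S2, (if P z then main z + E else 0) ≤
      ∑ z ∈ S1 ×ˢ S2, (if (∃ y, P (z.1, y)) then main z else 0) + ∑ z ∈ S1 ×ˢ S2, E := by
    rw [← Finset.sum_add_distrib]
    apply Finset.sum_le_sum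
    intro z _
    by_cases h : P z
    · have h2 : ∃ y, P (z.1, y) := ⟨z.2, h⟩
      rw [if_pos h, if_pos h2]
    · rw [if_neg h]
      split_ifs
      · linarith [hmain0 z]
      · linarith
  have step3 : ∑ z ∈ S1 ×ˢ S2, E ≤ 9 * C * K2 := by
    rw [Finset.sum_const, nsmul_eq_mul, Finset.card_product]
    have c1 : (S1.card : ℝ) ≤ 3 * n := by
      have : S1.card ≤ (Finset.Icc 0 (2 * (n : ℤ))).card := Finset.card_filter_le _ _
      rw [Int.card_Icc] at this
      have h2 : (2 * (n : ℤ) + 1 - 0).toNat = 2 * n + 1 := by omega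
      rw [h2] at this
      have h3 : (S1.card : ℝ) ≤ ((2 * n + 1 : ℕ) : ℝ) := by exact_mod_cast this
      push_cast at h3
      linarith
    have c2 : (S2.card : ℝ) ≤ 3 * n := by
      rw [hS2, Int.card_Icc]
      have h2 : ((n : ℤ) + 1 - (-(n : ℤ))).toNat = 2 * n + 1 := by omega
      rw [h2]
      push_cast
      linarith
    have h5 := hstr (n : ℝ) hn1
    have h6 : Real.exp (-((2 * n : ℕ) : ℝ) ^ c') ≤ Real.exp (-(1 * (n : ℝ) ^ c')) := by
      apply Real.exp_le_exp.2
      apply neg_le_neg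
      rw [one_mul]
      apply Real.rpow_le_rpow (by positivity) _ hc'.le
      push_cast
      linarith
    have h7 : (n : ℝ) ^ (42 : ℝ) = (n : ℝ) ^ 40 * (n : ℝ) ^ 2 := by
      rw [← pow_add]
      norm_cast
    push_cast
    calc (S1.card : ℝ) * (S2.card : ℝ) * E ≤ (3 * n) * (3 * n) * E := by gcongr
      _ ≤ (3 * n) * (3 * n) * (C * (n : ℝ) ^ 40 * Real.exp (-(1 * (n : ℝ) ^ c'))) := by
          rw [hE]; gcongr
      _ = 9 * C * ((n : ℝ) ^ (42 : ℝ) * Real.exp (-(1 * (n : ℝ) ^ c'))) := by rw [h7]; ring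
      _ ≤ 9 * C * K2 := by gcongr
  have hbz : ∀ z : ℤ × ℤ, bz n a z = bz n a (z.1, 0) := fun z => rfl
  set ρ : ℝ := 256 * Real.exp (-11) with hρ
  have hρ0 : 0 < ρ := by positivity
  have step4 : ∑ z ∈ S1 ×ˢ S2, (if (∃ y, P (z.1, y)) then main z else 0) ≤
      ∑ x ∈ S3, C * K * 16 ^ a * ρ ^ (bz n a (x, 0) - a) := by
    have e3 : ∑ x ∈ S3, C * K * 16 ^ a * ρ ^ (bz n a (x, 0) - a) =
        ∑ x ∈ S1, (if (∃ y, P (x, y)) then C * K * 16 ^ a * ρ ^ (bz n a (x, 0) - a) else 0) := by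
      rw [hS3, Finset.sum_filter]
    rw [Finset.sum_product, e3]
    apply Finset.sum_le_sum
    intro x _
    by_cases h : ∃ y, P (x, y)
    · simp only [h, if_true]
      have hb := (h_BZ n a (x, 0) ha hn h64).1
      obtain ⟨d, hd⟩ := Nat.exists_eq_add_of_le hb
      have h1 := hin (16 ^ d) (Nat.one_le_pow _ _ (by norm_num)) S2
      have h2 : ∀ y ∈ S2, main (x, y) = C * 16 ^ (a + d) * Real.exp (-(11 * (d : ℝ))) *
          Real.exp (-(c * (|(y : ℝ)| / ((16 ^ d : ℕ) : ℝ)) ^ s)) := by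
        intro y _
        simp only [hmain]
        rw [hbz (x, y)]
        simp only
        rw [hd]
        have h3 : (((a + d : ℕ) : ℝ) - a) = d := by push_cast; ring
        rw [h3]
        have h4 : |(y : ℝ)| * 16 ^ a / 16 ^ (a + d) = |(y : ℝ)| / ((16 ^ d : ℕ) : ℝ) := by
          push_cast
          rw [pow_add]
          field_simp
        rw [h4]
      rw [Finset.sum_congr rfl h2, ← Finset.mul_sum]
      have h5 : Real.exp (-(11 * (d : ℝ))) = Real.exp (-11) ^ d := by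
        rw [← Real.exp_nat_mul]; congr 1; ring
      rw [hd, show a + d - a = d by omega, h5]
      calc C * 16 ^ (a + d) * Real.exp (-11) ^ d *
            ∑ y ∈ S2, Real.exp (-(c * (|(y : ℝ)| / ((16 ^ d : ℕ) : ℝ)) ^ s))
          ≤ C * 16 ^ (a + d) * Real.exp (-11) ^ d * (K * ((16 ^ d : ℕ) : ℝ)) := by gcongr
        _ = C * K * 16 ^ a * ρ ^ d := by
            rw [hρ, mul_pow, show (256 : ℝ) = 16 * 16 by norm_num, mul_pow, pow_add]
            push_cast
            ring
    · simp only [h, if_false, Finset.sum_const_zero, le_refl]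
  have step5 : ∑ x ∈ S3, C * K * 16 ^ a * ρ ^ (bz n a (x, 0) - a) ≤ C * K * 140 * 16 ^ a := by
    rw [← Finset.mul_sum]
    have h1 : ∑ x ∈ S3, ρ ^ (bz n a (x, 0) - a) ≤ 140 := by
      rw [Finset.sum_comp (fun d : ℕ => ρ ^ d) (fun x : ℤ => bz n a (x, 0) - a)]
      have h2 : ∀ d ∈ S3.image (fun x : ℤ => bz n a (x, 0) - a),
          (S3.filter (fun x : ℤ => bz n a (x, 0) - a = d)).card • ρ ^ d ≤
            70 * (1 / 2 : ℝ) ^ d := by
        intro d _
        rw [nsmul_eq_mul]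
        have h3 := col_card n a d (S3.filter (fun x : ℤ => bz n a (x, 0) - a = d)) ?_ ?_
        · calc ((S3.filter (fun x : ℤ => bz n a (x, 0) - a = d)).card : ℝ) * ρ ^ d
              ≤ (70 * 64 ^ d) * ρ ^ d := by gcongr
            _ = 70 * (16384 * Real.exp (-11)) ^ d := by
                rw [hρ, mul_assoc, ← mul_pow]
                congr 2
                ring
            _ ≤ 70 * (1 / 2 : ℝ) ^ d := by
                gcongr
                exact exp11
        · intro x hx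
          have hx1 := (Finset.mem_filter.1 hx).1
          rw [hS3, Finset.mem_filter, hS1, Finset.mem_filter, Finset.mem_Icc] at hx1
          exact ⟨hx1.1.1.1, hx1.1.2⟩
        · intro x hx
          have hx2 := (Finset.mem_filter.1 hx).2
          have hb := h_BZ n a (x, 0) ha hn h64
          have h4 := hb.2.1
          unfold lv at h4
          rw [show bz n a (x, 0) + 1 - 1 = a + d by omega] at h4
          exact h4
      refine (Finset.sum_le_sum h2).trans ?_
      rw [← Finset.mul_sum]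
      have h3 := (summable_geometric_of_lt_one (by norm_num : (0 : ℝ) ≤ 1 / 2)
        (by norm_num)).sum_le_tsum (S3.image (fun x : ℤ => bz n a (x, 0) - a))
        (fun d _ => by positivity)
      rw [tsum_geometric_of_lt_one (by norm_num) (by norm_num)] at h3
      norm_num at h3 ⊢
      linarith
    calc C * K * 16 ^ a * ∑ x ∈ S3, ρ ^ (bz n a (x, 0) - a) ≤ C * K * 16 ^ a * 140 := by gcongr
      _ = C * K * 140 * 16 ^ a := by ring
  have h16 : (1 : ℝ) ≤ 16 ^ a := one_le_pow₀ (by norm_num)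
  have h9 : 9 * C * K2 ≤ 9 * C * K2 * 16 ^ a := by
    have : 0 ≤ 9 * C * K2 := by positivity
    nlinarith
  linarith

end Pool.Agent.H65.ND
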