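import Pool.Agent.H76.ND.Targets2
import Pool.Agent.H48.INS.DEP
import Pool.Agent.H17.INS.DER

/-!
# Part D of MP_57ddd5_pr: MEG (measurability and dependence of goodness)
-/

open MeasureTheory ProbabilityTheory
open scoped ENNReal

namespace Pool.Agent.H65.ND

open Pool.Agent.H99.NS Pool.Agent.H22.LPP Pool.Agent.H95.INS Pool.Agent.H76.ND

theorem splice_agree {D : Dat} {out out' : Env} (h : Agree D out out') (w : Env) :
    splice (Bx D) w out = splice (Bx D) w out' := by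
  funext x
  by_cases hx : x ∈ Bx D
  · rw [splice_of_mem _ _ hx, splice_of_mem _ _ hx]
  · rw [splice_of_not_mem _ _ hx, splice_of_not_mem _ _ hx, h x hx]

theorem splice_eq_on {B A : Set Site} {out out' : Env} (h : ∀ x ∈ A, out x = out' x) (w : Env) :
    ∀ x ∈ A, splice B w out x = splice B w out' x := by
  intro x hA
  by_cases hx : x ∈ B
  · rw [splice_of_mem _ _ hx, splice_of_mem _ _ hx]
  · rw [splice_of_not_mem _ _ hx, splice_of_not_mem _ _ hx, h x hA]

theorem pin_agree {D : Dat} {out out' : Env} (h : Agree D out out') (E : Env → Prop) :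
    Pin D out E = Pin D out' E := by
  unfold Pin
  simp only [splice_agree h]

theorem pin_dep {D : Dat} {A : Set Site} {E : Env → Prop} (hE : DepOn A E) {out out' : Env}
    (h : ∀ x ∈ A, out x = out' x) : Pin D out E = Pin D out' E := by
  unfold Pin
  congr 1
  ext ω
  have := hE _ _ (splice_eq_on (B := Bx D) h ω)
  simp only [Set.mem_ofPred_eq, this]

theorem wd_sub {D : Dat} {s t : ℤ} (h1 : -(4 * D.n) ≤ s) (h2 : t ≤ 4 * D.n) :
    Wd D s t ⊆ Wd D (-(4 * D.n)) (4 * D.n) := by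
  rintro x ⟨a, b, c⟩
  exact ⟨by linarith, by linarith, c⟩

theorem depOn_not {A : Set Site} {E : Env → Prop} (h : DepOn A E) : DepOn A (fun ω => ¬ E ω) := by
  intro ω ω' h'
  have := h ω ω' h'
  simp only [this]

theorem fc_imp {D : Dat} (hD : 0 ≤ D.n) {out out' : Env}
    (h : ∀ E : Env → Prop, DepOn (Wd D (-(4 * D.n)) (4 * D.n)) E → Pin D out E = Pin D out' E)
    (hF : FC D out) : FC D out' := by
  have hU : ∀ s t c, -(4 * D.n) ≤ s → t ≤ 4 * D.n →
      DepOn (Wd D (-(4 * D.n)) (4 * D.n)) (fun ω => UB D ω s t c) := fun s t c h1 h2 =>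
    (Pool.Agent.H48.INS.pf_DEP D s t c 0 0).1.mono (wd_sub h1 h2)
  have hN : ∀ s t c, -(4 * D.n) ≤ s → t ≤ 4 * D.n →
      DepOn (Wd D (-(4 * D.n)) (4 * D.n)) (fun ω => ND D ω s t c) := fun s t c h1 h2 =>
    (Pool.Agent.H48.INS.pf_DEP D s t c 0 0).2.1.mono (wd_sub h1 h2)
  have hC : DepOn (Wd D (-(4 * D.n)) (4 * D.n)) (fun ω => CU D ω) :=
    (Pool.Agent.H48.INS.pf_DEP D 0 0 0 0 0).2.2.1
  have hS : DepOn (Wd D (-(4 * D.n)) (4 * D.n)) (fun ω => Sm D ω) := by
    intro ω ω' h'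
    have a1 := hU (-(4 * D.n)) (-(3 * D.n)) (1 / 1000) (by linarith) (by linarith) ω ω' h'
    have a2 := hU (-(2 * D.n)) (2 * D.n) (1 / 1000) (by linarith) (by linarith) ω ω' h'
    have a3 := hU (3 * D.n) (4 * D.n) (1 / 1000) (by linarith) (by linarith) ω ω' h'
    simp only [eq_iff_iff] at a1 a2 a3 ⊢
    exact ⟨fun x => ⟨a1.1 x.s1, a2.1 x.s2, a3.1 x.s3⟩, fun x => ⟨a1.2 x.s1, a2.2 x.s2, a3.2 x.s3⟩⟩
  refine ⟨?_, ?_, ?_, ?_, ?_, ?_⟩
  · rw [← h _ (depOn_not (hU _ _ _ (by linarith) (by linarith)))]; exact hF.u1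
  · rw [← h _ (depOn_not (hU _ _ _ (by linarith) (by linarith)))]; exact hF.u2
  · rw [← h _ (depOn_not (hN _ _ _ (by linarith) (by linarith)))]; exact hF.d1
  · rw [← h _ (depOn_not (hN _ _ _ (by linarith) (by linarith)))]; exact hF.d2
  · rw [← h _ (depOn_not hS)]; exact hF.sm
  · rw [← h _ (depOn_not hC)]; exact hF.cu

theorem rr_dep (D : Dat) (o e : Site) : DepOn (dom o e) (fun ω => RR D ω o e) := by
  intro ω ω' h
  simp only [RR, eq_iff_iff]
  constructor
  · intro h1 g hg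
    exact h1 g ((Pool.Agent.H17.INS.near_congr h _ g).2 hg)
  · intro h1 g hg
    exact h1 g ((Pool.Agent.H17.INS.near_congr h _ g).1 hg)

/-- The sites used by `O1` and `O2`. -/
def SO (D : Dat) : Set Site :=
  {x | -(256 * D.n) < x.1 ∧ x.1 ≤ 256 * D.n ∧ |x.2| ≤ D.X + 512 * D.n}

theorem SO_finite (D : Dat) : (SO D).Finite := by
  apply Set.Finite.subset (s := ((Finset.Icc (-(256 * D.n)) (256 * D.n)) ×ˢ
    (Finset.Icc (-(D.X + 512 * D.n)) (D.X + 512 * D.n)) : Finset (ℤ × ℤ)))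
  · exact Finset.finite_toSet _
  · rintro x ⟨h1, h2, h3⟩
    rw [Finset.mem_coe, Finset.mem_product, Finset.mem_Icc, Finset.mem_Icc]
    have := abs_le.1 h3
    exact ⟨⟨h1.le, h2⟩, this.1, this.2⟩

theorem o1_imp {D : Dat} {ω ω' : Env} (h : ∀ x ∈ SO D, ω x = ω' x) (hO : O1 D ω) : O1 D ω' := by
  intro s t g h1 h2 h3 h4 h5 h6
  have hw : wt ω' s t g = wt ω s t g := by
    apply wt_congr
    intro r hr1 hr2
    refine (h _ ⟨?_, ?_, ?_⟩).symm
    · show -(256 * D.n) < r
      linarith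
    · show r ≤ 256 * D.n
      linarith
    · show |g r| ≤ _
      have := path_lip h4 (a := s) (b := r) le_rfl hr1.le hr2
      have h7 : |g r| ≤ |g s| + |g r - g s| := by
        have := abs_add_le (g s) (g r - g s)
        rwa [add_sub_cancel] at this
      linarith [this.1]
  rw [hw]
  exact hO s t g h1 h2 h3 h4 h5 h6

theorem lbd_imp {D : Dat} {ω ω' : Env} (h : ∀ x ∈ SO D, ω x = ω' x) {s t : ℤ}
    (hs : -(256 * D.n) ≤ s) (ht : t ≤ 256 * D.n) (hO : LBd D ω s t) : LBd D ω' s t := by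
  intro x y h1 h2 h3
  have hT : T ω' (s, x) (t, y) = T ω (s, x) (t, y) := by
    apply T_congr
    rintro u ⟨hu1, hu2, hu3⟩
    have hu4 := reach_le hu3
    simp only at hu1 hu4
    refine (h _ ⟨?_, ?_, ?_⟩).symm
    · linarith
    · linarith
    · have := hu2.1
      simp only at this
      have h7 : |u.2| ≤ |x| + |u.2 - x| := by
        have := abs_add_le x (u.2 - x)
        rwa [add_sub_cancel] at this
      linarith
  rw [hT]
  exact hO x y h1 h2 h3

theorem o2_imp {D : Dat} (hD : 0 ≤ D.n) {ω ω' : Env} (h : ∀ x ∈ SO D, ω x = ω' x)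
    (hO : O2 D ω) : O2 D ω' :=
  ⟨lbd_imp h (by linarith) (by linarith) hO.a, lbd_imp h (by linarith) (by linarith) hO.b,
    lbd_imp h (by linarith) (by linarith) hO.c, lbd_imp h (by linarith) (by linarith) hO.d,
    lbd_imp h (by linarith) (by linarith) hO.e⟩

/-- The sites used by `Good`. -/
def SG (D : Dat) (o e : Site) : Set Site := Wd D (-(4 * D.n)) (4 * D.n) ∪ dom o e ∪ SO D

theorem good_imp {D : Dat} (hD : 0 ≤ D.n) {o e : Site} {out out' : Env}
    (h : ∀ x ∈ SG D o e, out x = out' x) (hG : Good D out o e) : Good D out' o e := by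
  obtain ⟨hF, hR, ω₀, γ, h1, h2, h3, h4, h5⟩ := hG
  have hW : ∀ x ∈ Wd D (-(4 * D.n)) (4 * D.n), out x = out' x := fun x hx => h x (Or.inl (Or.inl hx))
  have hd : ∀ x ∈ dom o e, out x = out' x := fun x hx => h x (Or.inl (Or.inr hx))
  have hs : ∀ x ∈ SO D, out x = out' x := fun x hx => h x (Or.inr hx)
  refine ⟨fc_imp hD (fun E hE => pin_dep hE hW) hF, ?_, ω₀, γ, ?_, ?_, ?_, h4, h5⟩
  · unfold RF at hR ⊢
    rw [← pin_dep (depOn_not (rr_dep D o e)) hd]
    exact hR
  · exact o1_imp (splice_eq_on hs ω₀) h1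
  · exact o2_imp hD (splice_eq_on hs ω₀) h2
  · exact (Pool.Agent.H17.INS.near_congr (splice_eq_on hd ω₀) _ _).1 h3

theorem good_agree {D : Dat} (hD : 0 ≤ D.n) {o e : Site} {out out' : Env}
    (h : Agree D out out') (hG : Good D out o e) : Good D out' o e := by
  obtain ⟨hF, hR, ω₀, γ, h1, h2, h3⟩ := hG
  refine ⟨fc_imp hD (fun E _ => pin_agree h E) hF, ?_, ω₀, γ, ?_, ?_, ?_⟩
  · unfold RF at hR ⊢
    rw [← pin_agree h]
    exact hR
  · rw [← splice_agree h]; exact h1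
  · rw [← splice_agree h]; exact h2
  · rw [← splice_agree h]; exact h3

theorem pf_MEG (h_FIM : T_FIM) : T_MEG := by
  intro D o e _ hD
  have hRF : DepOn (dom o e) (fun out => RF D out o e) := by
    intro out out' h
    have := pin_dep (D := D) (depOn_not (rr_dep D o e)) h
    simp only [RF, this]
  have hGd : DepOn (SG D o e) (fun out => Good D out o e) := by
    intro out out' h
    exact propext ⟨good_imp hD h, good_imp hD (fun x hx => (h x hx).symm)⟩
  have hfin : (SG D o e).Finite :=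
    (((Pool.Agent.H48.INS.pf_DEP D (-(4 * D.n)) (4 * D.n) 0 0 0).2.2.2.2.2.2.1).union
      (dom_finite o e)).union (SO_finite D)
  refine ⟨⟨_, dom_finite o e, hRF⟩, ⟨_, hfin, hGd⟩, h_FIM _ _ (dom_finite o e) hRF,
    h_FIM _ _ hfin hGd, ?_⟩
  intro out out' h
  have h' : Agree D out' out := fun x hx => (h x hx).symm
  refine ⟨⟨fc_imp hD (fun E _ => pin_agree h E), fc_imp hD (fun E _ => pin_agree h' E)⟩, ?_,
    ⟨good_agree hD h, good_agree hD h'⟩⟩
  unfold RF
  rw [pin_agree h]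

end Pool.Agent.H65.ND
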